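import Pool.Agent.Lib.MP_74a8fd_ag.HP.Taut
import Pool.Agent.Lib.MP_74a8fd_ag.HP.SpZ

/-!
# The homomorphism property of the tautological projection for square integrable classes

Let `G = Sp_2n(ℝ)`, `K = U(n)`, `Γ` a discrete subgroup such that `G / Γ` has a finite invariant
measure `μ` (a lattice), for instance `Γ = Sp_2n(ℤ)` (`SpZ n`, `discreteTopology_SpZ`), where
`Γ \ G / K` is the moduli space `A_n`. Differential forms on `Γ \ G / K` are written, as usual, as
`K`-equivariant functions on `G / Γ` (`g Γ` corresponds to `Γ g⁻¹`) with values in the complexified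
exterior algebra `Forms n` of the dual of `p` = (complex symmetric matrices); the exterior
derivative is `∑ dx_ij ∧ D_{E_ij} + dy_ij ∧ D_{i E_ij}` (`extD`), where `D_Z` is the derivative along
`exp(t Z)`. `hodgeTop n = det (∑ k, dz_ik ∧ dzb_jk)` is, up to a non-zero scalar, the top Chern form
`c = c_n(𝔼, h)` of the Hodge bundle with its Hodge metric. `IsLambdaForm μ ω`: `ω = c + dβ`, `ω` and
`β` bounded (for instance `ω = c`; the class `λ_n` of `A_n` has representatives of this kind which
are closed with compact support, the `λ_n`-pairing is `∫ ω ∧ φ ∧ γ`).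

Theorem. Let `φ`, `η` be closed `C¹` forms on `Γ \ G / K`, `φ` in `L^p`, `η` in `L^q`,
`1/p + 1/q = 1` (`1 ≤ p, q ≤ ∞`; for instance both square integrable), and `φ₀`, `η₀` their means
over `G / Γ` (invariant forms). Let `IsLambdaForm μ ω`, and let `φ' = φ`, `η' = η`, or, if `ω` is
closed with compact support, let `φ'`, `η'` be any closed `C¹` forms (no growth condition)
cohomologous to `φ`, `η`. Then `∫ ω ∧ φ' ∧ η' = μ(G / Γ) c ∧ φ₀ ∧ η₀`. Hence the tautological
projection with respect to the pairing `∫ ω ∧ φ ∧ γ` (`γ` invariant) is multiplicative on these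
forms. If `G / Γ` is compact, all closed `C¹` forms are square integrable.

Proof. `c` is a linear combination of the forms `Φ_u = ∏ (Z u)_i ∧ conj (Z u)_i`, `u ∈ ℂⁿ`, and
`U(n)` permutes these, up to scalars, transitively; so `c` may be replaced by `Φ = Φ_{e_o}`. Let
`a_t = exp(t E_oo)`. Since `φ` is closed, `D_{E_oo} φ = d (ι φ)`, `ι` the contraction with `E_oo`;
after multiplication with `Φ` only the directions `E_ij`, `i E_ij` with `i, j ≠ o` remain, which
commute with `a_t`. Integration by parts (with cut off functions of small derivative, as `G / Γ` is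
complete) and `dη = 0` show that `∫ Φ ∧ φ(a_t x) ∧ η(x)` does not
depend on `t`. By the mean ergodic theorem and the Mautner phenomenon (a square integrable function
invariant under `a_1` is invariant under the two horospherical subgroups of `a_1`, which generate `G`,
hence constant) it is equal to `μ(G / Γ) Φ ∧ φ₀ ∧ η₀`. The forms `ω`, `φ'`, `η'` are handled by the
theorem of Stokes.
-/

set_option autoImplicit false

open Matrix MeasureTheory

namespace Pool.Agent.Results.MP_74a8fd_ag.L2HomomorphismProperty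

open _root_.MP_74a8fd_ag.HP

/-- The homomorphism property for classes with closed square integrable representatives on
`Γ \ H_n`, `Γ` a lattice in `Sp_2n(ℝ)`. -/
theorem result (n : ℕ) (hn : 0 < n) (Γ : Subgroup (Sp n)) [DiscreteTopology Γ]
    [MeasurableSpace (Sp n ⧸ Γ)] [BorelSpace (Sp n ⧸ Γ)]
    (μ : Measure (Sp n ⧸ Γ)) [IsFiniteMeasure μ] [SMulInvariantMeasure (Sp n) (Sp n ⧸ Γ) μ] :
    (∀ p q : ENNReal, p⁻¹ + q⁻¹ = 1 → ∀ φ η : Sp n ⧸ Γ → Forms n,
      IsClosedForm φ → IsClosedForm η → IsLp p μ φ → IsLp q μ η →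
      ∃ φ₀ η₀ : Forms n, IsInv φ₀ ∧ IsInv η₀ ∧ IsMean μ φ φ₀ ∧ IsMean μ η η₀ ∧
        ∀ ω φ' η' : Sp n ⧸ Γ → Forms n, IsLambdaForm μ ω → IsAdm ω φ φ' → IsAdm ω η η' →
          IsMean μ (fun x => wmul (wmul (ω x) (φ' x)) (η' x))
            (wmul (wmul (hodgeTop n) φ₀) η₀) ∧
          ∀ top : FDual n, IsTaut μ top ω φ' φ₀ ∧ IsTaut μ top ω η' η₀ ∧
            ∀ τ σ : Forms n, IsTaut μ top ω φ' τ → IsTaut μ top ω η' σ →
              IsTaut μ top ω (fun x => wmul (φ' x) (η' x)) (wmul τ σ)) ∧
    IsLambdaForm μ (fun _ => hodgeTop n) ∧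
    (CompactSpace (Sp n ⧸ Γ) → ∀ φ : Sp n ⧸ Γ → Forms n, IsClosedForm φ → IsLp 2 μ φ) := by
  refine ⟨fun p q hpq φ η hφ hη hφp hηq => ?_, isLambdaForm_hodgeTop,
    fun _ φ h => isLp_of_compact h⟩
  have : ENNReal.HolderConjugate p q := ENNReal.holderConjugate_iff.2 hpq
  have : ENNReal.HolderConjugate q p := ENNReal.HolderConjugate.symm
  obtain ⟨φ₀, i1, h1⟩ := exists_mean (ENNReal.HolderConjugate.one_le p q) hφ hφp
  obtain ⟨η₀, i2, h2⟩ := exists_mean (ENNReal.HolderConjugate.one_le q p) hη hηq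
  exact ⟨φ₀, η₀, i1, i2, h1, h2, fun ω φ' η' hω a1 a2 =>
    ⟨main_lambda hn hω hφ hη hφp hηq a1 a2 h1 h2, fun top =>
      ⟨isTaut_mean (q := q) hn hω hφ hφp a1 i1 h1 top,
        isTaut_mean (q := p) hn hω hη hηq a2 i2 h2 top, fun τ σ hτ hσ =>
        isTaut_mul hn hω hφ hη hφp hηq a1 a2 top hτ hσ⟩⟩⟩

end Pool.Agent.Results.MP_74a8fd_ag.L2HomomorphismProperty
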